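import Pool.Agent.W836.SH.Stm

/-! # Shifted Heller constant: S_CORE (task SH-CORE of helper836, by helper311) -/

set_option autoImplicit false

open scoped Classical

namespace Pool.Agent.W311.SH

open Pool.Agent.W836.SH

theorem main (h1 : S_CP) (h2 : S_CG) : S_CORE := by
  intro ι U s P D hTS hH hDP hcard h4 hfr
  choose! Φ S hF hS using hfr
  have hD3 : 3 ≤ D.card := by omega
  obtain ⟨g0, hg0⟩ : D.Nonempty := Finset.card_pos.1 (by omega)
  by_cases hA : ∃ g1 ∈ D, ∃ g2 ∈ D, ∃ p ∈ P, ∃ q ∈ P, Φ g1 p = Φ g1 q ∧ Φ g2 p ≠ Φ g2 q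
  · obtain ⟨g1, hg1, g2, hg2, p0, hp0, q0, hq0, he, hne⟩ := hA
    obtain ⟨a, b, hab, -⟩ := h1 ι U s P (Φ g1) (Φ g2) (S g1) (S g2) hTS (hF g1 hg1) (hF g2 hg2)
    have hc : ∀ g ∈ D, ∃ c : Fin 3, ∀ p ∈ P, Φ g1 p = a ↔ Φ g p = c := by
      intro g hg
      exact h2 ι U s P (Φ g1) (Φ g2) (Φ g) (S g1) (S g2) (S g) a b hTS hH (hF g1 hg1)
        (hF g2 hg2) (hF g hg) hab ⟨p0, hp0, q0, hq0, he, hne⟩
    choose! c hc using hc
    have key : ∃ j ∈ P, ∀ p ∈ P, Φ g1 p = a ↔ p = j := by
      by_cases hM : ∃ d ∈ D, Φ g1 d = a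
      · obtain ⟨d, hd, hda⟩ := hM
        refine ⟨d, hDP hd, fun p hp => ⟨fun h => ?_, fun h => by rw [h]; exact hda⟩⟩
        have e1 := (hc d hd p hp).1 h
        have e2 := (hc d hd d (hDP hd)).1 hda
        exact hS d hd p hp (by rw [e1, e2])
      · push Not at hM
        obtain ⟨j, hj, hja⟩ := (hF g1 hg1).2.1 a
        refine ⟨j, hj, fun p hp => ⟨fun h => ?_, fun h => by rw [h]; exact hja⟩⟩
        by_contra hpj
        have hsub : insert p (insert j D) ⊆ P := by
          intro x hx
          rw [Finset.mem_insert, Finset.mem_insert] at hx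
          rcases hx with rfl | rfl | hx
          · exact hp
          · exact hj
          · exact hDP hx
        have hjD : j ∉ D := fun hjD => hM j hjD hja
        have hpD : p ∉ D := fun hpD => hM p hpD h
        have hcd := Finset.card_le_card hsub
        rw [Finset.card_insert_of_notMem, Finset.card_insert_of_notMem hjD] at hcd
        · omega
        · rw [Finset.mem_insert]
          rintro (h' | h')
          · exact hpj h'
          · exact hpD h'
    obtain ⟨j, hj, hjM⟩ := key
    refine ⟨j, hj, fun g hg hgj => ⟨Φ g, S g, hF g hg, fun p hp h => ?_, hS g hg⟩⟩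
    have e1 := (hc g hg j hj).1 ((hjM j hj).2 rfl)
    exact (hjM p hp).1 ((hc g hg p hp).2 (by rw [h, e1]))
  · exfalso
    push Not at hA
    have hsing : ∀ g ∈ D, ∀ p ∈ P, Φ g0 p = Φ g0 g → p = g := by
      intro g hg p hp h
      exact hS g hg p hp (hA g0 hg0 g hg p hp g (hDP hg) h)
    have hinj : Set.InjOn (Φ g0) (D : Set ι) := by
      intro x hx y hy h
      exact hsing y hy x (hDP hx) h
    have himg : D.image (Φ g0) = Finset.univ := by
      apply Finset.eq_univ_of_card
      rw [Finset.card_image_of_injOn hinj]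
      have h5 : (D.image (Φ g0)).card ≤ (Finset.univ : Finset (Fin 3)).card :=
        Finset.card_le_card (Finset.subset_univ _)
      rw [Finset.card_image_of_injOn hinj, Finset.card_univ, Fintype.card_fin] at h5
      rw [Fintype.card_fin]
      omega
    have hcardD : D.card = 3 := by
      have h6 := congrArg Finset.card himg
      rw [Finset.card_image_of_injOn hinj, Finset.card_univ, Fintype.card_fin] at h6
      exact h6
    obtain ⟨p, hp, hpD⟩ : ∃ p ∈ P, p ∉ D := by
      by_contra hcon
      push Not at hcon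
      have := Finset.card_le_card (fun x hx => hcon x hx : P ⊆ D)
      omega
    have : Φ g0 p ∈ D.image (Φ g0) := by rw [himg]; exact Finset.mem_univ _
    rw [Finset.mem_image] at this
    obtain ⟨g, hg, hgp⟩ := this
    have := hsing g hg p hp hgp.symm
    rw [this] at hpD
    exact hpD hg

end Pool.Agent.W311.SH
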